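import Pool.Agent.Q5.MZ.Stm2

set_option autoImplicit false

namespace Pool.Agent.Q61.MZ

/-- Job GB of project MZ: an equivariant homomorphism on a normal subgroup of odd index extends to
a `1`-cocycle. -/
theorem gb : Pool.Agent.Q5.MZ.S_GB := by
  classical
  intro G V _ _ _ H ρ f hN hodd h2 hρ hadd heq
  have hmul : ∀ (g g' : G) (v : V), ρ (g * g') v = ρ g (ρ g' v) := by
    intro g g' v
    rw [map_mul]
    rfl
  have hinv : ∀ (g : G) (v : V), ρ g⁻¹ (ρ g v) = v := by
    intro g v
    rw [← hmul, inv_mul_cancel, map_one]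
    rfl
  -- representatives
  let R : G → G := fun g => if g ∈ H then 1 else (Quotient.out (g : G ⧸ H))
  have hcl : ∀ g : G, ((R g : G) : G ⧸ H) = (g : G ⧸ H) := by
    intro g
    by_cases hg : g ∈ H
    · simp only [R, hg, if_true]
      rw [QuotientGroup.eq]
      simpa using hg
    · simp only [R, hg, if_false]
      exact Quotient.out_eq _
  have hRc : ∀ g g' : G, (g : G ⧸ H) = (g' : G ⧸ H) → R g = R g' := by
    intro g g' h
    have hiff : g ∈ H ↔ g' ∈ H := by
      rw [← QuotientGroup.eq_one_iff, ← QuotientGroup.eq_one_iff g', h]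
    by_cases hg : g ∈ H
    · have hg' := hiff.1 hg
      simp only [R, hg, hg', if_true]
    · have hg' : ¬ g' ∈ H := fun h' => hg (hiff.2 h')
      simp only [R, hg, hg', if_false, h]
  have hq : ∀ g : G, g * (R g)⁻¹ ∈ H := by
    intro g
    have h := hcl g
    rw [← QuotientGroup.eq_one_iff, QuotientGroup.mk_mul, QuotientGroup.mk_inv, h, mul_inv_cancel]
  let a0 : G → V := fun g => f ⟨g * (R g)⁻¹, hq g⟩
  have hRl : ∀ (h : H) (g : G), R (h * g) = R g := by
    intro h g
    apply hRc
    rw [QuotientGroup.mk_mul, (QuotientGroup.eq_one_iff (h : G)).2 h.2, one_mul]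
  have ha0l : ∀ (h : H) (g : G), a0 (h * g) = f h + a0 g := by
    intro h g
    simp only [a0]
    rw [← hadd]
    congr 1
    apply Subtype.ext
    simp only [hRl h g, Subgroup.coe_mul, mul_assoc]
  have ha0H : ∀ h : H, a0 h = f h := by
    intro h
    simp only [a0]
    congr 1
    apply Subtype.ext
    have : R (h : G) = 1 := by simp only [R, h.2, if_true]
    simp [this]
  let z : G → G → V := fun g g' => a0 g + ρ g (a0 g') - a0 (g * g')
  have hzl : ∀ (h : H) (g g' : G), z (h * g) g' = z g g' := by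
    intro h g g'
    simp only [z]
    rw [ha0l, mul_assoc, ha0l, map_mul, hρ h h.2, one_mul]
    abel
  have hzH : ∀ (g : G) (h : H), z g h = 0 := by
    intro g h
    simp only [z]
    have hmem : g * h * g⁻¹ ∈ H := hN.conj_mem _ h.2 g
    have h1 : g * (h : G) = ((⟨g * h * g⁻¹, hmem⟩ : H) : G) * g := by simp
    rw [h1, ha0l, ha0H, heq g h ⟨g * h * g⁻¹, hmem⟩ rfl]
    abel
  have hcoc : ∀ g g' g'' : G, z g g' + z (g * g') g'' = ρ g (z g' g'') + z g (g' * g'') := by
    intro g g' g''
    simp only [z, hmul, map_add, map_sub, mul_assoc]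
    abel
  let w : G → G → V := fun g g' => ρ g⁻¹ (z g g')
  have hwl : ∀ (h : H) (g g' : G), w (h * g) g' = w g g' := by
    intro h g g'
    simp only [w]
    rw [hzl, mul_inv_rev, map_mul, hρ _ (H.inv_mem h.2), mul_one]
  have hwc : ∀ (g₁ g₂ g' : G), (g₁ : G ⧸ H) = (g₂ : G ⧸ H) → w g₁ g' = w g₂ g' := by
    intro g₁ g₂ g' h
    have hm : g₁ * g₂⁻¹ ∈ H := by
      rw [← QuotientGroup.eq_one_iff, QuotientGroup.mk_mul, QuotientGroup.mk_inv, h, mul_inv_cancel]
    have h1 : g₁ = ((⟨g₁ * g₂⁻¹, hm⟩ : H) : G) * g₂ := by simp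
    rw [h1, hwl]
  have : Fintype (G ⧸ H) := Fintype.ofFinite _
  let W : (G ⧸ H) → G → V := fun q g' => w q.out g'
  have hW : ∀ g g' : G, W (g : G ⧸ H) g' = w g g' := by
    intro g g'
    exact hwc _ _ _ (Quotient.out_eq _)
  let b : G → V := fun g' => ∑ q : G ⧸ H, W q g'
  have hodd2 : ∀ v : V, H.index • v = v := by
    intro v
    obtain ⟨k, hk⟩ := hodd
    rw [hk, add_smul, one_smul, mul_comm, mul_smul, two_smul, h2, smul_zero, zero_add]
  have hb : ∀ g' g'' : G, b g' + ρ g' (b g'') = z g' g'' + b (g' * g'') := by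
    intro g' g''
    have h1 : ρ g' (b g'') = ∑ q : G ⧸ H, ρ g' (W (q * (g' : G ⧸ H)) g'') := by
      simp only [b]
      rw [map_sum]
      exact (Fintype.sum_equiv (Equiv.mulRight ((g' : G) : G ⧸ H)) _ _ (fun q => rfl)).symm
    have h3 : z g' g'' = ∑ q : G ⧸ H, z g' g'' := by
      rw [Finset.sum_const, Finset.card_univ, ← Nat.card_eq_fintype_card]
      exact (hodd2 _).symm
    rw [h1, h3]
    simp only [b]
    rw [← Finset.sum_add_distrib, ← Finset.sum_add_distrib]
    apply Finset.sum_congr rfl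
    intro q _
    obtain ⟨g, rfl⟩ := QuotientGroup.mk_surjective q
    rw [← QuotientGroup.mk_mul, hW, hW, hW]
    simp only [w]
    have h4 : ρ g' (ρ (g * g')⁻¹ (z (g * g') g'')) = ρ g⁻¹ (z (g * g') g'') := by
      rw [← hmul]
      congr 2
      group
    have h5 : z g' g'' = ρ g⁻¹ (ρ g (z g' g'')) := (hinv g _).symm
    rw [h4, h5, ← map_add, ← map_add, hcoc]
  refine ⟨fun g => a0 g - b g, ?_, ?_⟩
  · intro g g'
    have h := hb g g'
    simp only [z] at h
    simp only [map_sub]
    have h' : b (g * g') = b g + ρ g (b g') - (a0 g + ρ g (a0 g') - a0 (g * g')) := by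
      rw [h]; abel
    rw [h']
    abel
  · intro h
    have hb0 : b (h : G) = 0 := by
      simp only [b]
      apply Finset.sum_eq_zero
      intro q _
      simp only [W, w, hzH, map_zero]
    simp only [hb0, sub_zero, ha0H]

end Pool.Agent.Q61.MZ
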